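import Pool.Agent.SAWP.F.Final
import Pool.Agent.SAWP.F.Transfer

/-!
The limit of `SAWP.limit_exists` is a deterministic constant (same proof, quantifiers exchanged).
-/

set_option autoImplicit false

open MeasureTheory Filter Topology

namespace Pool.Agent.SAWP

/-- the limit is a deterministic constant -/
theorem limit_const (p : unitInterval) (hp : 1 / 2 < p.1) :
    ∃ μ : ℝ, 1 ≤ μ ∧ ∀ᵐ ω ∂(perc p), ∀ v : V, InfCl ω v →
      Tendsto (fun n : ℕ => (sig ω v n : ℝ) ^ ((1 : ℝ) / (n : ℝ))) atTop (𝓝 μ) := by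
  set S : Set ℝ := {b : ℝ | 0 ≤ b ∧ LB p b} with hS
  have h0 : (0 : ℝ) ∈ S := ⟨le_rfl, LB_zero p⟩
  by_cases hbdd : BddAbove S
  · set s := sSup S with hs
    have hs0 : 0 ≤ s := le_csSup hbdd h0
    have hL : ∀ j : ℕ, LB p (s - 1 / ((j : ℝ) + 1)) := by
      intro j
      have hpos : (0 : ℝ) < 1 / ((j : ℝ) + 1) := by positivity
      obtain ⟨b, hb, hlt⟩ := exists_lt_of_lt_csSup ⟨0, h0⟩
        (show s - 1 / ((j : ℝ) + 1) < sSup S by linarith)
      exact hb.2.anti hlt.le
    have hU : ∀ j : ℕ, UB p (s + 3 / ((j : ℝ) + 1)) := by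
      intro j
      have hpos : (0 : ℝ) < 1 / ((j : ℝ) + 1) := by positivity
      have hn : ¬ LB p (s + 1 / ((j : ℝ) + 1)) := by
        intro hLB
        have : s + 1 / ((j : ℝ) + 1) ≤ sSup S := le_csSup hbdd ⟨by linarith, hLB⟩
        linarith
      have h1 := (dichotomy p hp (b := s + 1 / ((j : ℝ) + 1)) (by linarith) hpos).resolve_left hn
      have e : s + 1 / ((j : ℝ) + 1) + 2 * (1 / ((j : ℝ) + 1)) = s + 3 / ((j : ℝ) + 1) := by
        ring
      rwa [e] at h1
    refine ⟨Real.exp s, Real.one_le_exp hs0, ?_⟩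
    filter_upwards [ae_all_iff.2 hL, ae_all_iff.2 hU] with ω hωL hωU v hv
    have hpos : ∀ n, (0 : ℝ) < sig ω v n := fun n => by
      have := sig_pos hv n
      exact_mod_cast this
    have hj : ∀ δ : ℝ, 0 < δ → ∃ j : ℕ, 3 / ((j : ℝ) + 1) < δ := by
      intro δ hδ
      obtain ⟨j, hj⟩ := exists_nat_gt (3 / δ)
      refine ⟨j, ?_⟩
      rw [div_lt_iff₀ hδ] at hj
      rw [div_lt_iff₀ (by positivity)]
      nlinarith
    have hlog : Tendsto (fun n : ℕ => Real.log (sig ω v n) * ((1 : ℝ) / (n : ℝ))) atTop (𝓝 s) := by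
      rw [tendsto_order]
      constructor
      · intro a ha
        obtain ⟨j, hj⟩ := hj ((s - a) / 2) (by linarith)
        have h13 : 1 / ((j : ℝ) + 1) ≤ 3 / ((j : ℝ) + 1) :=
          div_le_div_of_nonneg_right (by norm_num) (by positivity)
        filter_upwards [hωL j v hv ((s - a) / 2) (by linarith), eventually_gt_atTop 0] with n hn hn0
        have hn0' : (0 : ℝ) < n := by exact_mod_cast hn0
        rw [← Real.le_log_iff_exp_le (hpos n)] at hn
        rw [mul_one_div, lt_div_iff₀ hn0']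
        refine lt_of_lt_of_le ?_ hn
        exact mul_lt_mul_of_pos_right (by linarith) hn0'
      · intro a ha
        obtain ⟨j, hj⟩ := hj ((a - s) / 2) (by linarith)
        filter_upwards [hωU j v ((a - s) / 2) (by linarith), eventually_gt_atTop 0] with n hn hn0
        have hn0' : (0 : ℝ) < n := by exact_mod_cast hn0
        rw [← Real.log_le_iff_le_exp (hpos n)] at hn
        rw [mul_one_div, div_lt_iff₀ hn0']
        refine lt_of_le_of_lt hn ?_
        exact mul_lt_mul_of_pos_right (by linarith) hn0'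
    refine ((Real.continuous_exp.tendsto s).comp hlog).congr fun n => ?_
    rw [Function.comp_apply, Real.rpow_def_of_pos (hpos n)]
  · rw [not_bddAbove_iff] at hbdd
    obtain ⟨b, hb, hb3⟩ := hbdd 3
    refine ⟨1, le_rfl, ?_⟩
    filter_upwards [hb.2] with ω hω v hv
    exfalso
    obtain ⟨n, hn, hn0⟩ := ((hω v hv 1 one_pos).and (eventually_gt_atTop 0)).exists
    have h1 : (sig ω v n : ℝ) ≤ 4 ^ n := by exact_mod_cast sig_le ω v n
    have hn0' : (0 : ℝ) < n := by exact_mod_cast hn0
    have h2 : Real.exp (2 * n) < Real.exp ((b - 1) * n) :=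
      Real.exp_lt_exp.2 (mul_lt_mul_of_pos_right (by linarith) hn0')
    have h3 : (4 : ℝ) ^ n ≤ Real.exp (2 * n) := by
      have h4 : (4 : ℝ) ≤ Real.exp 2 := by
        have h5 := Real.add_one_le_exp (1 : ℝ)
        have h6 : Real.exp 2 = Real.exp 1 * Real.exp 1 := by
          rw [← Real.exp_add]
          norm_num
        rw [h6]
        nlinarith
      calc (4 : ℝ) ^ n ≤ Real.exp 2 ^ n := pow_le_pow_left₀ (by norm_num) h4 n
        _ = Real.exp (2 * n) := by rw [← Real.exp_nat_mul]; congr 1; ring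
    linarith

end Pool.Agent.SAWP
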